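import Mathlib
import Pool.Agent.ISO.StmtsR

/-!
# Squad ISO, block R: row EXT (finitely many `n` suffice)
-/

set_option autoImplicit false
set_option linter.unusedVariables false

namespace Pool.Agent.ISO.R.H95

open Finset Pool.Agent.Helper6_Mono Pool.Agent.Helper32_OMP Pool.Agent.ISO Pool.Agent.ISO.R

theorem dWord_zero {σ : Type} (w : List σ) : dWord w (0 : MvPolynomial σ ℂ) = 0 := by
  induction w with
  | nil => rfl
  | cons i w ih =>
    show MvPolynomial.pderiv i (dWord w (0 : MvPolynomial σ ℂ)) = 0
    rw [ih, map_zero]

theorem ext (hPWI : PwiStmt) : ExtStmt := by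
  intro σ _ G h b W d c hd hn n
  by_cases hG : G = 0
  · rcases Nat.eq_zero_or_pos n with h0 | hpos
    · subst h0
      exact hn 0 (Nat.zero_le _)
    · rw [hG, zero_pow (by omega), mul_zero]
      symm
      apply Finset.sum_eq_zero
      intro w _
      rw [zero_pow (by omega), dWord_zero, mul_zero]
  · choose Q hQd hQ using hPWI σ G
    have key : ∀ S : Polynomial (MvPolynomial σ ℂ),
        S = (b.map MvPolynomial.C) * Polynomial.C (h * G ^ W) -
          ∑ w ∈ Wd σ W, c w * Q w * Polynomial.C (G ^ (W + 1 - w.length)) →
        (∀ m : ℕ, (MvPolynomial.C (b.eval (m : ℂ)) * h * G ^ m -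
          ∑ w ∈ Wd σ W, (c w).eval (m : MvPolynomial σ ℂ) * dWord w (G ^ (m + 1))) * G ^ W =
            G ^ m * S.eval (m : MvPolynomial σ ℂ)) ∧ S.natDegree ≤ d + W + b.natDegree := by
      rintro S rfl
      constructor
      · intro m
        rw [Polynomial.eval_sub, Polynomial.eval_mul, Polynomial.eval_C,
          Polynomial.eval_natCast_map, Polynomial.eval_finsetSum, sub_mul, mul_sub,
          Finset.sum_mul, Finset.mul_sum]
        have h1 : MvPolynomial.C (Polynomial.eval (m : ℂ) b) * h * G ^ m * G ^ W =
            G ^ m * (MvPolynomial.C (Polynomial.eval (m : ℂ) b) * (h * G ^ W)) := by ring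
        rw [h1]
        congr 1
        apply Finset.sum_congr rfl
        intro w hw
        rw [mem_Wd] at hw
        rw [Polynomial.eval_mul, Polynomial.eval_mul, Polynomial.eval_C]
        have h2 : G ^ W = G ^ w.length * G ^ (W - w.length) := by
          rw [← pow_add]
          congr 1
          omega
        have h3 : G ^ (W + 1 - w.length) = G * G ^ (W - w.length) := by
          rw [← pow_succ']
          congr 1
          omega
        rw [h2, h3]
        calc Polynomial.eval (m : MvPolynomial σ ℂ) (c w) * dWord w (G ^ (m + 1)) *
              (G ^ w.length * G ^ (W - w.length))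
            = Polynomial.eval (m : MvPolynomial σ ℂ) (c w) *
                (dWord w (G ^ (m + 1)) * G ^ w.length) * G ^ (W - w.length) := by ring
          _ = _ := by rw [hQ w m]; ring
      · refine (Polynomial.natDegree_sub_le_of_le (m := d + W + b.natDegree)
          (n := d + W + b.natDegree) ?_ ?_).trans (by simp)
        · refine Polynomial.natDegree_mul_le.trans ?_
          rw [Polynomial.natDegree_C]
          have := Polynomial.natDegree_map_le (f := (MvPolynomial.C : ℂ →+* MvPolynomial σ ℂ))
            (p := b)
          omega
        · apply Polynomial.natDegree_sum_le_of_forall_le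
          intro w hw
          rw [mem_Wd] at hw
          refine Polynomial.natDegree_mul_le.trans ?_
          rw [Polynomial.natDegree_C]
          have h4 := Polynomial.natDegree_mul_le (p := c w) (q := Q w)
          have h5 := hd w
          have h6 := hQd w
          omega
    obtain ⟨hS, hSd⟩ := key _ rfl
    have hGW : G ^ W ≠ 0 := pow_ne_zero _ hG
    have hS0 : (b.map MvPolynomial.C) * Polynomial.C (h * G ^ W) -
          ∑ w ∈ Wd σ W, c w * Q w * Polynomial.C (G ^ (W + 1 - w.length)) = 0 := by
      apply Polynomial.eq_zero_of_natDegree_lt_card_of_eval_eq_zero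
        (ι := Fin (d + W + b.natDegree + 1)) (f := fun i => ((i : ℕ) : MvPolynomial σ ℂ))
      · intro i j hij
        exact Fin.ext (Nat.cast_injective hij)
      · intro i
        have h7 := hS (i : ℕ)
        rw [hn (i : ℕ) (by omega), sub_self, zero_mul] at h7
        rcases mul_eq_zero.1 h7.symm with h8 | h8
        · exact absurd h8 (pow_ne_zero _ hG)
        · exact h8
      · rw [Fintype.card_fin]
        omega
    have h9 := hS n
    rw [hS0, Polynomial.eval_zero, mul_zero] at h9
    rcases mul_eq_zero.1 h9 with h10 | h10
    · exact sub_eq_zero.1 h10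
    · exact absurd h10 hGW

end Pool.Agent.ISO.R.H95
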