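import Mathlib
import Pool.Agent.ISO.StmtsM

/-!
# Squad ISO: row PAP (`mv` on functors is the application of `Kpt`)
-/

set_option autoImplicit false
set_option linter.unusedVariables false

namespace Pool.Agent.ISO.H95

open MvPolynomial Pool.Agent.Helper6_Mono Pool.Agent.ISO

theorem aeval_const {k : Type} [Field k] {σ : Type} (f : MvPolynomial σ k) (q : σ → k) (S : Type)
    [CommRing S] [Algebra k S] : aeval (fun i => algebraMap k S (q i)) f =
      algebraMap k S (eval q f) := by
  have h := aeval_algebraMap_apply (R := k) (A := k) S q f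
  rw [aeval_eq_eval] at h
  exact h

theorem aeval_zero_fun {k : Type} [Field k] {σ : Type} {f1 : MvPolynomial σ k}
    (h0 : eval (0 : σ → k) f1 = 0) {S : Type} [CommRing S] [Algebra k S] {b : σ → S}
    (hb : ∀ a, b a = 0) : aeval b f1 = 0 := by
  have h1 : b = fun i => algebraMap k S ((0 : σ → k) i) := by
    funext i
    rw [hb i, Pi.zero_apply, map_zero]
  rw [h1, aeval_const, h0, map_zero]

theorem pap : PapStmt := by
  intro k _ σ f f1 p hp h0 X V hPres
  obtain ⟨e, he⟩ := hPres
  have he' : ∀ (S : Type) [CommRing S] [Algebra k S]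
      (x : (X.zero (RingPart.fNF f1 X)).F.obj S) (b : σ),
      aeval (e.eq S x).1 (V.pt b) = (X.pt b).fn x.1 := fun S _ _ x b => he S x b
  have hes : ∀ (S : Type) [CommRing S] [Algebra k S] (y : (RingPart.ov V).F.obj S) (b : σ),
      (X.pt b).fn ((e.eq S).symm y).1 = aeval y.1 (V.pt b) := by
    intro S _ _ y b
    rw [← he' S ((e.eq S).symm y) b, Equiv.apply_symm_apply]
  refine ⟨⟨fun S _ _ => ?_, ?_⟩, ?_⟩
  · exact
      { toFun := fun x => ⟨(e.eq S ⟨x.1.1.1, aeval_zero_fun h0 x.1.2⟩).1, by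
          rintro q (hq | ⟨i, rfl⟩)
          · exact (e.eq S ⟨x.1.1.1, aeval_zero_fun h0 x.1.2⟩).2 q hq
          · rw [he']
            exact x.1.2 i⟩
        invFun := fun y => ⟨⟨(((e.eq S).symm ⟨y.1, fun q hq => y.2 q (Or.inl hq)⟩).1, ()),
            fun a => by
              show (X.pt a).fn ((e.eq S).symm ⟨y.1, fun q hq => y.2 q (Or.inl hq)⟩).1 = 0
              rw [hes]
              exact y.2 _ (Or.inr ⟨a, rfl⟩)⟩, by
            show aeval (fun l => algebraMap k S (p l)) f = 0
            rw [aeval_const, hp, map_zero]⟩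
        left_inv := fun x => by
          apply Subtype.ext
          apply Subtype.ext
          refine Prod.ext ?_ rfl
          show ((e.eq S).symm ⟨(e.eq S ⟨x.1.1.1, aeval_zero_fun h0 x.1.2⟩).1, _⟩).1 = x.1.1.1
          have h1 : (⟨(e.eq S ⟨x.1.1.1, aeval_zero_fun h0 x.1.2⟩).1,
              (e.eq S ⟨x.1.1.1, aeval_zero_fun h0 x.1.2⟩).2⟩ : (RingPart.ov V).F.obj S) =
              e.eq S ⟨x.1.1.1, aeval_zero_fun h0 x.1.2⟩ := rfl
          rw [h1, Equiv.symm_apply_apply]
        right_inv := fun y => by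
          apply Subtype.ext
          show (e.eq S ⟨((e.eq S).symm ⟨y.1, fun q hq => y.2 q (Or.inl hq)⟩).1, _⟩).1 = y.1
          have h1 : (⟨((e.eq S).symm ⟨y.1, fun q hq => y.2 q (Or.inl hq)⟩).1,
              ((e.eq S).symm ⟨y.1, fun q hq => y.2 q (Or.inl hq)⟩).2⟩ :
              (X.zero (RingPart.fNF f1 X)).F.obj S) =
              (e.eq S).symm ⟨y.1, fun q hq => y.2 q (Or.inl hq)⟩ := rfl
          rw [h1, Equiv.apply_symm_apply] }
  · intro S S' _ _ _ _ φ c x
    apply Subtype.ext
    have h := e.eq_tw φ c ⟨x.1.1.1, aeval_zero_fun h0 x.1.2⟩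
    have h2 := congrArg Subtype.val h
    exact h2
  · intro S _ _ x b
    show aeval (e.eq S ⟨x.1.1.1, aeval_zero_fun h0 x.1.2⟩).1 (C (p b)) = algebraMap k S (p b)
    rw [aeval_C]

end Pool.Agent.ISO.H95
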